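import Pool.Agent.H26.QQ.Targets

/-!
# Few exponents in two of the entries (MP_7ecdd4_nt, board qq_modules, row TPL)
-/

set_option autoImplicit false

open Finset

namespace Pool.Agent.H13.QQ

open Pool.Agent.H29.FX Pool.Agent.H38.AE.Statement Pool.Agent.H26.QQ

theorem tpl_radical {a b : ℤ} (h : a ∣ b) (hb : b ≠ 0) : radical a ≤ radical b := by
  unfold radical
  refine Finset.prod_le_prod_of_subset_of_one_le' ?_ ?_
  · exact Nat.primeFactors_mono (Int.natAbs_dvd_natAbs.2 h) (Int.natAbs_ne_zero.2 hb)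
  · intro p hp _
    exact (Nat.prime_of_mem_primeFactors hp).one_lt.le

theorem tpl_exponents (x : Fin 3 → ℤ) (hx : Admissible x) (a : Fin 3) (Q Q' : ℕ)
    (hQ : Q ∣ Q') :
    exponents Q' (∏ i, x i) ⊆
      exponents Q (∏ i ∈ univ.erase a, x i) ∪ exponents Q' (x a) := by
  intro e he
  unfold exponents at he
  rw [mem_image] at he
  obtain ⟨p, hp, rfl⟩ := he
  rw [mem_filter] at hp
  obtain ⟨hp1, hp2⟩ := hp
  have hpp := Nat.prime_of_mem_primeFactors hp1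
  obtain ⟨z, hz⟩ : ∃ z : ℤ, z = ∏ i ∈ univ.erase a, x i := ⟨_, rfl⟩
  rw [← hz]
  have hmul : ∏ i, x i = x a * z := by
    rw [hz]
    exact (Finset.mul_prod_erase univ x (mem_univ a)).symm
  have hxa : x a ≠ 0 := hx.1 a
  have hz0 : z ≠ 0 := by
    rw [hz]
    exact Finset.prod_ne_zero_iff.2 fun i _ => hx.1 i
  have hcop : IsCoprime (x a) z := by
    rw [hz]
    exact IsCoprime.prod_right fun i hi => hx.2.1 a i (ne_of_mem_erase hi).symm
  have hcn : Nat.Coprime (x a).natAbs z.natAbs := Int.isCoprime_iff_gcd_eq_one.1 hcop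
  have hnab : (∏ i, x i).natAbs = (x a).natAbs * z.natAbs := by rw [hmul, Int.natAbs_mul]
  rw [hnab] at hp1 ⊢
  have hxa' := Int.natAbs_ne_zero.2 hxa
  have hz0' := Int.natAbs_ne_zero.2 hz0
  have hfac : ((x a).natAbs * z.natAbs).factorization p =
      (x a).natAbs.factorization p + z.natAbs.factorization p := by
    rw [Nat.factorization_mul hxa' hz0']
    rfl
  rw [mem_union]
  by_cases h : p ∣ (x a).natAbs
  · right
    have hz' : ¬ p ∣ z.natAbs := fun h' => by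
      have := Nat.dvd_gcd h h'
      rw [hcn] at this
      exact hpp.one_lt.ne' (Nat.dvd_one.1 this)
    unfold exponents
    rw [mem_image]
    refine ⟨p, mem_filter.2 ⟨Nat.mem_primeFactors.2 ⟨hpp, h, hxa'⟩, hp2⟩, ?_⟩
    rw [hfac, Nat.factorization_eq_zero_of_not_dvd hz', add_zero]
  · left
    have hz' : p ∣ z.natAbs := by
      have h1 := Nat.dvd_of_mem_primeFactors hp1
      exact (hpp.dvd_mul.1 h1).resolve_left h
    unfold exponents
    rw [mem_image]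
    refine ⟨p, mem_filter.2 ⟨Nat.mem_primeFactors.2 ⟨hpp, hz', hz0'⟩,
      fun h' => hp2 (h'.trans hQ)⟩, ?_⟩
    rw [hfac, Nat.factorization_eq_zero_of_not_dvd h, zero_add]

theorem pf_TPL (hFNU : T_FNU) (hFNG : T_FNG) (hEXO : T_EXO) : T_TPL := by
  classical
  intro k η hη
  obtain ⟨η', hη'⟩ : ∃ η' : ℝ, η' = η / 3 := ⟨_, rfl⟩
  have hη'0 : 0 < η' := by rw [hη']; positivity
  obtain ⟨E₀, γ, hγ, hU⟩ := hFNU k η' hη'0
  obtain ⟨E, hE⟩ : ∃ E : ℕ, E = max E₀ 1 := ⟨_, rfl⟩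
  have hE₀ : E₀ ≤ E := by rw [hE]; exact le_max_left _ _
  have hE1 : 1 ≤ E := by rw [hE]; exact le_max_right _ _
  obtain ⟨m, hm⟩ := exists_nat_ge (1 / γ)
  have hm' : 1 ≤ γ * m := by
    rw [div_le_iff₀ hγ] at hm
    linarith
  obtain ⟨M, hM, hG⟩ := hFNG (k + (E + m)) η' hη'0
  refine ⟨M, hM, fun A θ hθ => ?_⟩
  obtain ⟨C₁, hC₁, h₁⟩ := hU A θ hθ E γ hE₀ le_rfl
  obtain ⟨C₂, hC₂, h₂⟩ := hG A (θ + η') (by linarith)
  refine ⟨3 * C₁ + C₂, by positivity, fun Y hY => ?_⟩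
  have hY0 : 0 < Y := by linarith
  have hY1 : 1 ≤ Y := by linarith
  have hsub : TwoFew k M (Y ^ θ) Y (Y ^ A) ⊆
      (⋃ a ∈ (univ : Finset (Fin 3)), DustFew k a E γ η' (Y ^ θ) Y (Y ^ A)) ∪
        FewExponents (k + (E + m)) M (Y ^ (θ + η')) Y (Y ^ A) := by
    rintro x ⟨hx, hrad, hbig, hle, a, Q, hQ1, hQ, hcard⟩
    obtain ⟨D, hD⟩ : ∃ D : Finset ℕ, D = (x a).natAbs.primeFactors.filter
      fun p : ℕ => (p : ℝ) ≤ Y ^ γ ∧ (p : ℤ) ^ E ∣ x a := ⟨_, rfl⟩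
    have hDp : ∀ l ∈ D, l.Prime ∧ (l : ℝ) ≤ Y ^ γ ∧ (l : ℤ) ^ E ∣ x a := by
      intro l hl
      rw [hD, mem_filter] at hl
      exact ⟨Nat.prime_of_mem_primeFactors hl.1, hl.2⟩
    rcases le_or_gt (Y ^ η') (∏ l ∈ D, (l : ℝ)) with h | h
    · left
      simp only [Set.mem_iUnion]
      exact ⟨a, mem_univ _, hx, hrad, hle, ⟨D, hDp, h⟩, Q, hQ1, hQ, hcard⟩
    · right
      have hDpos : 1 ≤ ∏ l ∈ D, l := by
        exact Finset.one_le_prod' fun l hl => (hDp l hl).1.one_lt.le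
      refine ⟨hx, hrad, hbig, hle, Q * ∏ l ∈ D, l, Nat.mul_pos hQ1 hDpos, ?_, ?_⟩
      · push_cast
        rw [Real.rpow_add hY0]
        exact mul_le_mul hQ h.le (by positivity) (by positivity)
      · have h1 := tpl_exponents x hx a Q (Q * ∏ l ∈ D, l) (dvd_mul_right _ _)
        have h2 : (exponents (Q * ∏ l ∈ D, l) (x a)).card ≤ E + m := by
          refine hEXO E m (Q * ∏ l ∈ D, l) γ Y (x a) hY hγ hm' (hx.1 a) ?_ ?_
          · refine le_trans ?_ hrad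
            have h3 : x a ∣ ∏ i, x i := Finset.dvd_prod_of_mem x (mem_univ a)
            have h4 : ∏ i, x i ≠ 0 := Finset.prod_ne_zero_iff.2 fun i _ => hx.1 i
            exact_mod_cast tpl_radical h3 h4
          · intro p hp hpY hpE
            refine (Finset.dvd_prod_of_mem (fun l => l) ?_).trans (dvd_mul_left _ Q)
            rw [hD, mem_filter]
            refine ⟨Nat.mem_primeFactors.2 ⟨hp, ?_, Int.natAbs_ne_zero.2 (hx.1 a)⟩, hpY, hpE⟩
            have h3 : (p : ℤ) ∣ x a := (dvd_pow_self (p : ℤ) (by omega)).trans hpE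
            exact Int.natCast_dvd.1 h3
        exact ((card_le_card h1).trans (card_union_le _ _)).trans (add_le_add hcard h2)
  have hfinD : ∀ a : Fin 3, (DustFew k a E γ η' (Y ^ θ) Y (Y ^ A)).Finite :=
    fun a => (h₁ Y a hY).1
  have hfinU : (⋃ a ∈ (univ : Finset (Fin 3)),
      DustFew k a E γ η' (Y ^ θ) Y (Y ^ A)).Finite :=
    Set.Finite.biUnion (Finset.finite_toSet _) fun a _ => hfinD a
  have hfinF := (h₂ Y hY).1
  have hfin := hfinU.union hfinF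
  refine ⟨hfin.subset hsub, ?_⟩
  have hc1 : ((⋃ a ∈ (univ : Finset (Fin 3)),
      DustFew k a E γ η' (Y ^ θ) Y (Y ^ A)).ncard : ℝ) ≤ 3 * (C₁ * Y ^ (θ + η')) := by
    have h3 : (⋃ a ∈ (univ : Finset (Fin 3)), DustFew k a E γ η' (Y ^ θ) Y (Y ^ A)).ncard ≤
        ∑ a : Fin 3, (DustFew k a E γ η' (Y ^ θ) Y (Y ^ A)).ncard :=
      Finset.set_ncard_biUnion_le _ _
    have h4 : ∑ a : Fin 3, ((DustFew k a E γ η' (Y ^ θ) Y (Y ^ A)).ncard : ℝ) ≤
        ∑ _a : Fin 3, C₁ * Y ^ (θ + η') := Finset.sum_le_sum fun a _ => (h₁ Y a hY).2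
    rw [Finset.sum_const, Finset.card_univ, Fintype.card_fin, nsmul_eq_mul] at h4
    have h5 : ((⋃ a ∈ (univ : Finset (Fin 3)),
        DustFew k a E γ η' (Y ^ θ) Y (Y ^ A)).ncard : ℝ) ≤
        ∑ a : Fin 3, ((DustFew k a E γ η' (Y ^ θ) Y (Y ^ A)).ncard : ℝ) := by
      exact_mod_cast h3
    refine h5.trans (h4.trans (le_of_eq ?_))
    norm_num
  have hc2 := (h₂ Y hY).2
  have hc3 : ((TwoFew k M (Y ^ θ) Y (Y ^ A)).ncard : ℝ) ≤
      ((⋃ a ∈ (univ : Finset (Fin 3)), DustFew k a E γ η' (Y ^ θ) Y (Y ^ A)).ncard : ℝ) +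
      ((FewExponents (k + (E + m)) M (Y ^ (θ + η')) Y (Y ^ A)).ncard : ℝ) := by
    have h3 := Set.ncard_le_ncard hsub hfin
    have h4 := Set.ncard_union_le (⋃ a ∈ (univ : Finset (Fin 3)),
      DustFew k a E γ η' (Y ^ θ) Y (Y ^ A))
      (FewExponents (k + (E + m)) M (Y ^ (θ + η')) Y (Y ^ A))
    exact_mod_cast h3.trans h4
  have e1 : Y ^ (θ + η') ≤ Y ^ (θ + η) := Real.rpow_le_rpow_of_exponent_le hY1 (by
    rw [hη']
    linarith)
  have e2 : Y ^ (θ + η' + η') ≤ Y ^ (θ + η) := Real.rpow_le_rpow_of_exponent_le hY1 (by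
    rw [hη']
    linarith)
  calc ((TwoFew k M (Y ^ θ) Y (Y ^ A)).ncard : ℝ)
      ≤ 3 * (C₁ * Y ^ (θ + η')) + C₂ * Y ^ (θ + η' + η') := by linarith
    _ ≤ 3 * (C₁ * Y ^ (θ + η)) + C₂ * Y ^ (θ + η) := by gcongr
    _ = (3 * C₁ + C₂) * Y ^ (θ + η) := by ring

end Pool.Agent.H13.QQ
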